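import Pool.Agent.W207.SW.SpecS

/-! # The truncated transform is small inside the gap -/

set_option autoImplicit false

open Complex Filter Topology Set MeasureTheory
open scoped BigOperators

namespace W200.SW

open W207.PR (ct dt)
open W207.SW

lemma sin_der (ξ u : ℝ) : HasDerivAt (fun u : ℝ => -Real.cos (2 * Real.pi * ξ * u))
    (2 * Real.pi * ξ * Real.sin (2 * Real.pi * ξ * u)) u := by
  have h1 : HasDerivAt (fun u : ℝ => 2 * Real.pi * ξ * u) (2 * Real.pi * ξ) u := by
    simpa using (hasDerivAt_id u).const_mul (2 * Real.pi * ξ)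
  have h2 := h1.cos.neg
  have e : -(-Real.sin (2 * Real.pi * ξ * u) * (2 * Real.pi * ξ)) =
      2 * Real.pi * ξ * Real.sin (2 * Real.pi * ξ * u) := by ring
  rw [e] at h2
  exact h2

lemma sin_int (ξ R : ℝ) : 2 * Real.pi * ξ * ∫ u in (0 : ℝ)..R, Real.sin (2 * Real.pi * ξ * u) =
    1 - Real.cos (2 * Real.pi * ξ * R) := by
  rw [← intervalIntegral.integral_const_mul,
    intervalIntegral.integral_eq_sub_of_hasDerivAt (fun u _ => sin_der ξ u)
      ((by fun_prop : Continuous fun u : ℝ =>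
        2 * Real.pi * ξ * Real.sin (2 * Real.pi * ξ * u)).intervalIntegrable _ _)]
  simp
  ring

lemma gr_on {O : ℝ → ℝ} {C0 : ℝ} (h : Gr O C0) {s : Set ℝ} (hs : s ⊆ Ioi 0) :
    ∀ᵐ u ∂(volume.restrict s), |O u| ≤ C0 * (1 + u) :=
  ae_restrict_of_ae_restrict_of_subset hs h.2

/-- products of continuous functions with `O` are integrable on bounded intervals -/
lemma ii {O f : ℝ → ℝ} {C0 a b : ℝ} (hC0 : 0 < C0) (h : Gr O C0) (ha : 0 ≤ a) (hab : a ≤ b)
    (hf : Continuous f) : IntervalIntegrable (fun u => f u * O u) volume a b := by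
  have hO : IntervalIntegrable O volume a b := by
    rw [intervalIntegrable_iff_integrableOn_Ioc_of_le hab]
    refine Measure.integrableOn_of_bounded (M := C0 * (1 + b)) (by simp)
      h.1.aestronglyMeasurable ?_
    have h1 := gr_on h (s := Ioc a b) (fun x hx => lt_of_le_of_lt ha hx.1)
    filter_upwards [h1, ae_restrict_mem measurableSet_Ioc] with u hu hu2
    rw [Real.norm_eq_abs]
    exact hu.trans (mul_le_mul_of_nonneg_left (by linarith [hu2.2]) hC0.le)
  exact hO.continuousOn_mul hf.continuousOn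

lemma triv {O : ℝ → ℝ} {C0 C Λ c R ξ : ℝ} (hC0 : 0 < C0) (hC : 0 < C) (hΛ : 0 < Λ)
    (hO : Gr O C0) (hR : 1 ≤ R) (hc : |c| ≤ C * (1 + R)) (hξ : |ξ| < Λ) :
    |ffr O c R ξ| ≤ (C + 2 * Real.pi * Λ * (C0 + C)) * (1 + R) ^ 2 := by
  have hpi := Real.pi_pos
  have h1 : |∫ u in (0 : ℝ)..R, (O u - c) * Real.sin (2 * Real.pi * ξ * u)| ≤
      (C0 + C) * (1 + R) * |R - 0| := by
    rw [← Real.norm_eq_abs]
    refine intervalIntegral.norm_integral_le_of_norm_le_const_ae ?_
    have h2 := (ae_restrict_iff' measurableSet_Ioi).1 hO.2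
    filter_upwards [h2] with u hu hmem
    rw [uIoc_of_le (by linarith)] at hmem
    have h3 := hu hmem.1
    rw [norm_mul, Real.norm_eq_abs, Real.norm_eq_abs]
    have h4 : |O u - c| ≤ (C0 + C) * (1 + R) := by
      calc |O u - c| ≤ |O u| + |c| := abs_sub _ _
        _ ≤ C0 * (1 + R) + C * (1 + R) := by
          refine add_le_add (h3.trans (mul_le_mul_of_nonneg_left ?_ hC0.le)) hc
          linarith [hmem.2]
        _ = (C0 + C) * (1 + R) := by ring
    calc |O u - c| * |Real.sin (2 * Real.pi * ξ * u)| ≤ ((C0 + C) * (1 + R)) * 1 :=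
          mul_le_mul h4 (Real.abs_sin_le_one _) (abs_nonneg _) (by positivity)
      _ = (C0 + C) * (1 + R) := mul_one _
  rw [sub_zero, abs_of_nonneg (by linarith : (0:ℝ) ≤ R)] at h1
  unfold ffr
  have h5 : |2 * Real.pi * ξ| ≤ 2 * Real.pi * Λ := by
    rw [abs_mul, abs_of_pos (by positivity : (0:ℝ) < 2 * Real.pi)]
    exact mul_le_mul_of_nonneg_left hξ.le (by positivity)
  calc |c + 2 * Real.pi * ξ * ∫ u in (0 : ℝ)..R, (O u - c) * Real.sin (2 * Real.pi * ξ * u)|
      ≤ |c| + |2 * Real.pi * ξ| *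
        |∫ u in (0 : ℝ)..R, (O u - c) * Real.sin (2 * Real.pi * ξ * u)| := by
        rw [← abs_mul]
        exact abs_add_le _ _
    _ ≤ C * (1 + R) + 2 * Real.pi * Λ * ((C0 + C) * (1 + R) * R) :=
        add_le_add hc (mul_le_mul h5 h1 (abs_nonneg _) (by positivity))
    _ ≤ C * (1 + R) ^ 2 + 2 * Real.pi * Λ * ((C0 + C) * (1 + R) ^ 2) := by
        refine add_le_add (mul_le_mul_of_nonneg_left ?_ hC.le)
          (mul_le_mul_of_nonneg_left ?_ (by positivity))
        · nlinarith
        · rw [mul_assoc]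
          refine mul_le_mul_of_nonneg_left ?_ (by positivity)
          nlinarith
    _ = (C + 2 * Real.pi * Λ * (C0 + C)) * (1 + R) ^ 2 := by ring

lemma ffr_eq {O : ℝ → ℝ} {C0 c R ξ : ℝ} (hC0 : 0 < C0) (hO : Gr O C0) (hR : 0 ≤ R) :
    ffr O c R ξ = 2 * Real.pi * ξ * (∫ u in (0 : ℝ)..R, Real.sin (2 * Real.pi * ξ * u) * O u) +
      c * Real.cos (2 * Real.pi * ξ * R) := by
  unfold ffr
  have hs : Continuous fun u : ℝ => Real.sin (2 * Real.pi * ξ * u) := by fun_prop
  have h1 : ∫ u in (0 : ℝ)..R, (O u - c) * Real.sin (2 * Real.pi * ξ * u) =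
      (∫ u in (0 : ℝ)..R, Real.sin (2 * Real.pi * ξ * u) * O u) -
        c * ∫ u in (0 : ℝ)..R, Real.sin (2 * Real.pi * ξ * u) := by
    rw [← intervalIntegral.integral_const_mul, ← intervalIntegral.integral_sub]
    · refine intervalIntegral.integral_congr (fun u _ => ?_)
      ring
    · exact ii hC0 hO le_rfl hR hs
    · exact (hs.const_mul c).intervalIntegrable _ _
  rw [h1]
  have h2 := sin_int ξ R
  linear_combination (-c) * h2

/-- the three pieces -/
lemma pieces {O h h' : ℝ → ℝ} {C0 c R B ξ E1 E2 F M Kh : ℝ} (hC0 : 0 < C0) (hO : Gr O C0)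
    (hR : 1 ≤ R) (hRB : R ≤ B)
    (hh : ∀ u, HasDerivAt h (h' u) u) (hh' : Continuous h')
    (hint : ∫ u in Ioi (0 : ℝ), h' u * O u = 0)
    (hdec : ∀ u, |h' u| ≤ Kh / (1 + |u|) ^ 3)
    (h1 : ∀ u, 0 ≤ u → u ≤ R → |h' u + 2 * Real.pi * ξ * Real.sin (2 * Real.pi * ξ * u)| ≤ E1)
    (hE1 : 0 ≤ E1)
    (h2 : |h R - Real.cos (2 * Real.pi * ξ * R)| ≤ E2) (h3 : |h B| ≤ E2)
    (h4 : ∀ᵐ u ∂(volume.restrict (Ioo R B)), |O u - c| ≤ F) (hF : 0 ≤ F)
    (h5 : ∀ u, |h' u| ≤ M)
    (h6 : ∀ u, B ≤ u → |h' u| ≤ E2 / (1 + u) ^ 3) (hE2 : 0 ≤ E2) (h7 : 0 ≤ M)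
    (hKh : 0 ≤ Kh) :
    |2 * Real.pi * ξ * (∫ u in (0 : ℝ)..R, Real.sin (2 * Real.pi * ξ * u) * O u) +
      c * Real.cos (2 * Real.pi * ξ * R)| ≤
      E1 * (C0 * (1 + R)) * R + |c| * (2 * E2) + M * F * (B - R) + E2 * C0 * Real.pi := by
  have hs : Continuous fun u : ℝ => Real.sin (2 * Real.pi * ξ * u) := by fun_prop
  have hI : IntegrableOn (fun u => h' u * O u) (Ioi 0) := by
    have hb : Integrable (fun u : ℝ => Kh * C0 * (1 + u ^ 2)⁻¹) :=
      integrable_inv_one_add_sq.const_mul _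
    refine Integrable.mono' (hb.integrableOn (s := Ioi 0))
      (hh'.measurable.mul hO.1).aestronglyMeasurable ?_
    filter_upwards [hO.2, ae_restrict_mem measurableSet_Ioi] with u hu hu2
    have hu0 : (0:ℝ) < u := hu2
    rw [norm_mul, Real.norm_eq_abs, Real.norm_eq_abs]
    have h8 := hdec u
    rw [abs_of_pos hu0] at h8
    calc |h' u| * |O u| ≤ (Kh / (1 + u) ^ 3) * (C0 * (1 + u)) :=
          mul_le_mul h8 hu (abs_nonneg _) (by positivity)
      _ = Kh * C0 * ((1 + u) ^ 2)⁻¹ := by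
          field_simp
      _ ≤ Kh * C0 * (1 + u ^ 2)⁻¹ := by
          refine mul_le_mul_of_nonneg_left ?_ (by positivity)
          exact inv_anti₀ (by positivity) (by nlinarith)
  have hR0 : (0:ℝ) ≤ R := by linarith
  have hB0 : (0:ℝ) ≤ B := by linarith
  have hIR : IntegrableOn (fun u => h' u * O u) (Ioi R) :=
    hI.mono_set (Ioi_subset_Ioi hR0)
  have hIB : IntegrableOn (fun u => h' u * O u) (Ioi B) :=
    hI.mono_set (Ioi_subset_Ioi hB0)
  have hsp1 := intervalIntegral.integral_interval_add_Ioi hI hIR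
  have hsp2 := intervalIntegral.integral_interval_add_Ioi hIR hIB
  -- piece 1
  have p1 : |(∫ u in (0 : ℝ)..R, h' u * O u) +
      2 * Real.pi * ξ * (∫ u in (0 : ℝ)..R, Real.sin (2 * Real.pi * ξ * u) * O u)| ≤
      E1 * (C0 * (1 + R)) * R := by
    have e1 : (∫ u in (0 : ℝ)..R, h' u * O u) +
      2 * Real.pi * ξ * (∫ u in (0 : ℝ)..R, Real.sin (2 * Real.pi * ξ * u) * O u) =
      ∫ u in (0 : ℝ)..R, (h' u + 2 * Real.pi * ξ * Real.sin (2 * Real.pi * ξ * u)) * O u := by
      rw [← intervalIntegral.integral_const_mul, ← intervalIntegral.integral_add]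
      · refine intervalIntegral.integral_congr (fun u _ => ?_)
        ring
      · exact ii hC0 hO le_rfl hR0 hh'
      · exact (ii hC0 hO le_rfl hR0 hs).const_mul _
    rw [e1, ← Real.norm_eq_abs]
    have h8 : ‖∫ u in (0 : ℝ)..R,
        (h' u + 2 * Real.pi * ξ * Real.sin (2 * Real.pi * ξ * u)) * O u‖ ≤
        E1 * (C0 * (1 + R)) * |R - 0| := by
      refine intervalIntegral.norm_integral_le_of_norm_le_const_ae ?_
      have h9 := (ae_restrict_iff' measurableSet_Ioi).1 hO.2
      filter_upwards [h9] with u hu hmem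
      rw [uIoc_of_le hR0] at hmem
      rw [norm_mul, Real.norm_eq_abs, Real.norm_eq_abs]
      refine mul_le_mul (h1 u hmem.1.le hmem.2) ((hu hmem.1).trans ?_) (abs_nonneg _) hE1
      exact mul_le_mul_of_nonneg_left (by linarith [hmem.2]) hC0.le
    rwa [sub_zero, abs_of_nonneg hR0] at h8
  -- piece 2
  have p2 : |(∫ u in R..B, h' u * O u) - c * (h B - h R)| ≤ M * F * (B - R) := by
    have e1 : (∫ u in R..B, h' u * O u) - c * (h B - h R) =
        ∫ u in R..B, h' u * (O u - c) := by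
      rw [← intervalIntegral.integral_eq_sub_of_hasDerivAt (fun u _ => hh u)
        (hh'.intervalIntegrable _ _), ← intervalIntegral.integral_const_mul,
        ← intervalIntegral.integral_sub]
      · refine intervalIntegral.integral_congr (fun u _ => ?_)
        ring
      · exact ii hC0 hO hR0 hRB hh'
      · exact (hh'.const_mul c).intervalIntegrable _ _
    rw [e1, ← Real.norm_eq_abs]
    have h8 : ‖∫ u in R..B, h' u * (O u - c)‖ ≤ M * F * |B - R| := by
      refine intervalIntegral.norm_integral_le_of_norm_le_const_ae ?_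
      have h9 := (ae_restrict_iff' measurableSet_Ioo).1 h4
      have h10 : ∀ᵐ u : ℝ, u ≠ B := by
        simp [ae_iff]
      filter_upwards [h9, h10] with u hu hne hmem
      rw [uIoc_of_le hRB] at hmem
      rw [norm_mul, Real.norm_eq_abs, Real.norm_eq_abs]
      exact mul_le_mul (h5 u) (hu ⟨hmem.1, lt_of_le_of_ne hmem.2 hne⟩) (abs_nonneg _) h7
    rwa [abs_of_nonneg (by linarith)] at h8
  -- piece 3
  have p3 : |∫ u in Ioi B, h' u * O u| ≤ E2 * C0 * Real.pi := by
    rw [← Real.norm_eq_abs]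
    have hb : Integrable (fun u : ℝ => E2 * C0 * (1 + u ^ 2)⁻¹) :=
      integrable_inv_one_add_sq.const_mul _
    calc ‖∫ u in Ioi B, h' u * O u‖ ≤ ∫ u in Ioi B, E2 * C0 * (1 + u ^ 2)⁻¹ := by
          refine norm_integral_le_of_norm_le hb.integrableOn ?_
          filter_upwards [gr_on hO (s := Ioi B) (Ioi_subset_Ioi hB0),
            ae_restrict_mem measurableSet_Ioi] with u hu hu2
          have hu0 : B < u := hu2
          have hu1 : 0 < u := by linarith
          rw [norm_mul, Real.norm_eq_abs, Real.norm_eq_abs]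
          calc |h' u| * |O u| ≤ (E2 / (1 + u) ^ 3) * (C0 * (1 + u)) :=
                mul_le_mul (h6 u hu0.le) hu (abs_nonneg _) (by positivity)
            _ = E2 * C0 * ((1 + u) ^ 2)⁻¹ := by
                field_simp
            _ ≤ E2 * C0 * (1 + u ^ 2)⁻¹ := by
                refine mul_le_mul_of_nonneg_left ?_ (by positivity)
                exact inv_anti₀ (by positivity) (by nlinarith)
      _ ≤ ∫ u : ℝ, E2 * C0 * (1 + u ^ 2)⁻¹ := by
          refine setIntegral_le_integral hb (Eventually.of_forall fun u => ?_)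
          positivity
      _ = E2 * C0 * Real.pi := by
          rw [integral_const_mul, integral_univ_inv_one_add_sq]
  have key : 2 * Real.pi * ξ * (∫ u in (0 : ℝ)..R, Real.sin (2 * Real.pi * ξ * u) * O u) +
      c * Real.cos (2 * Real.pi * ξ * R) =
      ((∫ u in (0 : ℝ)..R, h' u * O u) +
      2 * Real.pi * ξ * (∫ u in (0 : ℝ)..R, Real.sin (2 * Real.pi * ξ * u) * O u)) +
      ((∫ u in R..B, h' u * O u) - c * (h B - h R)) + (∫ u in Ioi B, h' u * O u) +
      c * (h B - (h R - Real.cos (2 * Real.pi * ξ * R))) := by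
    have : (∫ u in (0 : ℝ)..R, h' u * O u) + (∫ u in R..B, h' u * O u) +
        (∫ u in Ioi B, h' u * O u) = 0 := by
      rw [add_assoc, hsp2, hsp1, hint]
    linear_combination (-1) * this
  rw [key]
  have p4 : |c * (h B - (h R - Real.cos (2 * Real.pi * ξ * R)))| ≤ |c| * (2 * E2) := by
    rw [abs_mul]
    refine mul_le_mul_of_nonneg_left ?_ (abs_nonneg _)
    calc _ ≤ |h B| + |h R - Real.cos (2 * Real.pi * ξ * R)| := abs_sub _ _
      _ ≤ 2 * E2 := by linarith
  calc _ ≤ |((∫ u in (0 : ℝ)..R, h' u * O u) +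
      2 * Real.pi * ξ * (∫ u in (0 : ℝ)..R, Real.sin (2 * Real.pi * ξ * u) * O u)) +
      ((∫ u in R..B, h' u * O u) - c * (h B - h R)) + (∫ u in Ioi B, h' u * O u)| +
      |c * (h B - (h R - Real.cos (2 * Real.pi * ξ * R)))| := abs_add_le _ _
    _ ≤ (|((∫ u in (0 : ℝ)..R, h' u * O u) +
      2 * Real.pi * ξ * (∫ u in (0 : ℝ)..R, Real.sin (2 * Real.pi * ξ * u) * O u)) +
      ((∫ u in R..B, h' u * O u) - c * (h B - h R))| + |∫ u in Ioi B, h' u * O u|) +
      |c * (h B - (h R - Real.cos (2 * Real.pi * ξ * R)))| :=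
        add_le_add (abs_add_le _ _) le_rfl
    _ ≤ ((|(∫ u in (0 : ℝ)..R, h' u * O u) +
      2 * Real.pi * ξ * (∫ u in (0 : ℝ)..R, Real.sin (2 * Real.pi * ξ * u) * O u)| +
      |(∫ u in R..B, h' u * O u) - c * (h B - h R)|) + |∫ u in Ioi B, h' u * O u|) +
      |c * (h B - (h R - Real.cos (2 * Real.pi * ξ * R)))| :=
        add_le_add (add_le_add (abs_add_le _ _) le_rfl) le_rfl
    _ ≤ _ := by linarith

theorem sml : S_EXT → S_BLC → S_KG → S_SML := by
  intro hE hB hG C0 C δ ε Λ hC0 hC hδ hε hΛ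
  obtain ⟨K0, κ0, hK0, hκ0, HG⟩ := hG Λ δ hΛ hδ
  have hpi := Real.pi_pos
  set L : ℝ := 1 + 2 * Real.pi * Λ with hL
  have hL1 : 1 ≤ L := by
    rw [hL]
    have : 0 ≤ 2 * Real.pi * Λ := by positivity
    linarith
  have hL0 : 0 < L := by linarith
  set κ : ℝ := min κ0 (ε / Λ) with hκ
  have hκpos : 0 < κ := lt_min hκ0 (by positivity)
  have hκ1 : κ ≤ κ0 := min_le_left _ _
  have hκ2 : κ ≤ ε / Λ := min_le_right _ _
  set K1 : ℝ := C + 2 * Real.pi * Λ * (C0 + C) with hK1
  have hK1p : 0 < K1 := by positivity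
  set K2 : ℝ := L * K0 * (C0 + 2 * C + C * δ + C0 * Real.pi) with hK2
  have hK2p : 0 < K2 := by positivity
  refine ⟨K1 * Real.exp (16 * κ / δ) + K2, κ, 6, by positivity, hκpos, ?_⟩
  intro O c R hO hgap hR hH ξ hξ
  obtain ⟨hc, hhole⟩ := hH
  have hη : 0 < Λ - |ξ| := by linarith
  have hηΛ : Λ - |ξ| ≤ Λ := by linarith [abs_nonneg ξ]
  set η : ℝ := Λ - |ξ| with hηd
  have hR0 : (0:ℝ) < R := by linarith
  set X : ℝ := Real.exp (-(κ * η * R)) with hX
  have hXp : 0 < X := Real.exp_pos _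
  have h1R : (1:ℝ) ≤ 1 + R := by linarith
  rcases lt_or_ge (η * δ * R) 16 with hsm | hbig
  · have ht := triv hC0 hC hΛ hO hR hc hξ
    have h1 : 1 ≤ Real.exp (16 * κ / δ) * X := by
      rw [hX, ← Real.exp_add]
      apply Real.one_le_exp
      have h2 : κ * η * R ≤ 16 * κ / δ := by
        rw [le_div_iff₀ hδ]
        nlinarith
      linarith
    calc |ffr O c R ξ| ≤ K1 * (1 + R) ^ 2 := ht
      _ ≤ K1 * (1 + R) ^ 6 := mul_le_mul_of_nonneg_left (pow_le_pow_right₀ h1R (by norm_num)) hK1p.le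
      _ ≤ K1 * (1 + R) ^ 6 * (Real.exp (16 * κ / δ) * X) := le_mul_of_one_le_right (by positivity) h1
      _ ≤ (K1 * Real.exp (16 * κ / δ) + K2) * (1 + R) ^ 6 * X := by
          have : 0 ≤ K2 * (1 + R) ^ 6 * X := by positivity
          nlinarith
  · obtain ⟨g, g', hBL, hg, hg'c, hgK, hg1, hg2, K', hK'⟩ := HG η R hη hηΛ hR hbig
    set E : ℝ := Real.exp (-(κ0 * η * R)) with hEd
    have hEp : 0 < E := Real.exp_pos _
    have hEX : E ≤ X := by
      rw [hEd, hX]
      apply Real.exp_le_exp.2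
      have : κ * η * R ≤ κ0 * η * R := by
        have h0 : 0 ≤ η * R := by positivity
        nlinarith
      linarith
    have hεX : Real.exp (-(ε * R)) ≤ X := by
      rw [hX]
      apply Real.exp_le_exp.2
      have : κ * η * R ≤ ε * R := by
        refine mul_le_mul_of_nonneg_right ?_ hR0.le
        calc κ * η ≤ (ε / Λ) * Λ := mul_le_mul hκ2 hηΛ hη.le (by positivity)
          _ = ε := by field_simp
      linarith
    have hK'0 : 0 ≤ K' := by
      have h1 := (hK' 0).1
      have h2 : (0:ℝ) ≤ K' / (1 + |(0:ℝ)|) ^ 3 := (abs_nonneg _).trans h1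
      simpa using h2
    set w : ℝ := 2 * Real.pi * ξ with hw
    have hwL : |w| ≤ 2 * Real.pi * Λ := by
      rw [hw, abs_mul, abs_of_pos (by positivity : (0:ℝ) < 2 * Real.pi)]
      exact mul_le_mul_of_nonneg_left hξ.le (by positivity)
    -- the test function
    have hder : ∀ u, HasDerivAt (fun u => g u * Real.cos (w * u))
        (g' u * Real.cos (w * u) - w * g u * Real.sin (w * u)) u := by
      intro u
      have h1 : HasDerivAt (fun u : ℝ => w * u) w u := by
        simpa using (hasDerivAt_id u).const_mul w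
      have h2 := (hg u).mul h1.cos
      have e : g' u * Real.cos (w * u) + g u * (-Real.sin (w * u) * w) =
        g' u * Real.cos (w * u) - w * g u * Real.sin (w * u) := by ring
      rw [e] at h2
      exact h2
    have hgc : Continuous g := by
      have : Differentiable ℝ g := fun u => (hg u).differentiableAt
      exact this.continuous
    have hderc : Continuous (fun u => g' u * Real.cos (w * u) - w * g u * Real.sin (w * u)) := by
      fun_prop
    -- a general bound
    have hbd : ∀ u x y : ℝ, |g' u| ≤ x → |g u| ≤ x → y = L * x →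
        |g' u * Real.cos (w * u) - w * g u * Real.sin (w * u)| ≤ y := by
      intro u x y hx1 hx2 hy
      have hx0 : 0 ≤ x := (abs_nonneg _).trans hx1
      calc |g' u * Real.cos (w * u) - w * g u * Real.sin (w * u)|
          ≤ |g' u * Real.cos (w * u)| + |w * g u * Real.sin (w * u)| := abs_sub _ _
        _ ≤ x * 1 + 2 * Real.pi * Λ * x * 1 := by
            rw [abs_mul, abs_mul, abs_mul]
            refine add_le_add (mul_le_mul hx1 (Real.abs_cos_le_one _) (abs_nonneg _) hx0) ?_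
            refine mul_le_mul ?_ (Real.abs_sin_le_one _) (abs_nonneg _) (by positivity)
            exact mul_le_mul hwL hx2 (abs_nonneg _) (by positivity)
        _ = y := by rw [hy, hL]; ring
    have hbd0 : ∀ u x y : ℝ, |g u| ≤ x → y = L * x → |g u * Real.cos (w * u)| ≤ y := by
      intro u x y hx hy
      have hx0 : 0 ≤ x := (abs_nonneg _).trans hx
      calc |g u * Real.cos (w * u)| = |g u| * |Real.cos (w * u)| := abs_mul _ _
        _ ≤ x * 1 := mul_le_mul hx (Real.abs_cos_le_one _) (abs_nonneg _) hx0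
        _ ≤ y := by rw [hy]; nlinarith
    have hBL2 := hB (η / 2) ξ g (by positivity) hBL
    have hint := hE O (fun u => g u * Real.cos (w * u))
      (fun u => g' u * Real.cos (w * u) - w * g u * Real.sin (w * u)) C0 Λ (η / 2 + |ξ|) (L * K')
      hO hgap (by positivity) (by rw [hηd]; linarith) hBL2 hder hderc
      (fun u => ⟨hbd0 u _ _ (hK' u).1 (by ring), hbd u _ _ (hK' u).2 (hK' u).1 (by ring)⟩)
    have hpc := pieces (O := O) (h := fun u => g u * Real.cos (w * u))
      (h' := fun u => g' u * Real.cos (w * u) - w * g u * Real.sin (w * u))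
      (C0 := C0) (c := c) (R := R) (B := (1 + δ) * R) (ξ := ξ)
      (E1 := L * (K0 * (1 + R) * E)) (E2 := L * (K0 * (1 + R) ^ 5 * E))
      (F := C * Real.exp (-(ε * R))) (M := L * K0) (Kh := L * K')
      hC0 hO hR (by nlinarith) hder hderc hint
      (fun u => hbd u _ _ (hK' u).2 (hK' u).1 (by ring))
      (fun u hu1 hu2 => by
        have h1 := hg1 u hu1 hu2
        have e : g' u * Real.cos (w * u) - w * g u * Real.sin (w * u) + w * Real.sin (w * u) =
          g' u * Real.cos (w * u) - w * (g u - 1) * Real.sin (w * u) := by ring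
        have hx0 : 0 ≤ K0 * (1 + R) * E := by positivity
        simp only [← hw]
        rw [e]
        calc |g' u * Real.cos (w * u) - w * (g u - 1) * Real.sin (w * u)|
            ≤ |g' u * Real.cos (w * u)| + |w * (g u - 1) * Real.sin (w * u)| := abs_sub _ _
          _ ≤ K0 * (1 + R) * E * 1 + 2 * Real.pi * Λ * (K0 * (1 + R) * E) * 1 := by
              rw [abs_mul, abs_mul, abs_mul]
              refine add_le_add (mul_le_mul h1.2 (Real.abs_cos_le_one _) (abs_nonneg _) hx0) ?_
              refine mul_le_mul ?_ (Real.abs_sin_le_one _) (abs_nonneg _) (by positivity)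
              exact mul_le_mul hwL h1.1 (abs_nonneg _) (by positivity)
          _ = L * (K0 * (1 + R) * E) := by rw [hL]; ring)
      (by positivity)
      (by
        have h1 := (hg1 R hR0.le le_rfl).1
        simp only [← hw]
        have e : g R * Real.cos (w * R) - Real.cos (w * R) = (g R - 1) * Real.cos (w * R) := by ring
        rw [e, abs_mul]
        calc |g R - 1| * |Real.cos (w * R)| ≤ (K0 * (1 + R) * E) * 1 :=
              mul_le_mul h1 (Real.abs_cos_le_one _) (abs_nonneg _) (by positivity)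
          _ ≤ K0 * (1 + R) ^ 5 * E := by
              rw [mul_one]
              refine mul_le_mul_of_nonneg_right ?_ hEp.le
              refine mul_le_mul_of_nonneg_left ?_ hK0.le
              calc (1 + R) = (1 + R) ^ 1 := (pow_one _).symm
                _ ≤ (1 + R) ^ 5 := pow_le_pow_right₀ h1R (by norm_num)
          _ ≤ L * (K0 * (1 + R) ^ 5 * E) := le_mul_of_one_le_left (by positivity) hL1)
      (by
        have h1 := (hg2 ((1 + δ) * R) le_rfl).1
        refine hbd0 _ _ _ (h1.trans ?_) rfl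
        refine div_le_self (by positivity) ?_
        refine one_le_pow₀ ?_
        have : 0 ≤ (1 + δ) * R := by positivity
        linarith)
      hhole (by positivity)
      (fun u => hbd u _ _ (hgK u).2 (hgK u).1 rfl)
      (fun u hu => hbd u _ _ (hg2 u hu).2 (hg2 u hu).1 (by ring))
      (by positivity) (by positivity) (by positivity)
    rw [← ffr_eq hC0 hO hR0.le] at hpc
    refine hpc.trans ?_
    have hR6 : (1 + R) ^ 2 * R ≤ (1 + R) ^ 6 := by
      calc (1 + R) ^ 2 * R ≤ (1 + R) ^ 2 * (1 + R) :=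
            mul_le_mul_of_nonneg_left (by linarith) (by positivity)
        _ = (1 + R) ^ 3 := by ring
        _ ≤ (1 + R) ^ 6 := pow_le_pow_right₀ h1R (by norm_num)
    have hR5 : (1 + R) ^ 5 ≤ (1 + R) ^ 6 := pow_le_pow_right₀ h1R (by norm_num)
    have hR1 : R ≤ (1 + R) ^ 6 := by
      calc R ≤ (1 + R) ^ 1 := by rw [pow_one]; linarith
        _ ≤ (1 + R) ^ 6 := pow_le_pow_right₀ h1R (by norm_num)
    have t1 : L * (K0 * (1 + R) * E) * (C0 * (1 + R)) * R ≤ L * K0 * C0 * (1 + R) ^ 6 * X := by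
      calc L * (K0 * (1 + R) * E) * (C0 * (1 + R)) * R = L * K0 * C0 * ((1 + R) ^ 2 * R) * E := by
            ring
        _ ≤ L * K0 * C0 * (1 + R) ^ 6 * X := by gcongr
    have t2 : |c| * (2 * (L * (K0 * (1 + R) ^ 5 * E))) ≤ L * K0 * (2 * C) * (1 + R) ^ 6 * X := by
      calc |c| * (2 * (L * (K0 * (1 + R) ^ 5 * E))) ≤
          (C * (1 + R)) * (2 * (L * (K0 * (1 + R) ^ 5 * X))) := by gcongr
        _ = L * K0 * (2 * C) * (1 + R) ^ 6 * X := by ring
    have t3 : L * K0 * (C * Real.exp (-(ε * R))) * ((1 + δ) * R - R) ≤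
        L * K0 * (C * δ) * (1 + R) ^ 6 * X := by
      calc L * K0 * (C * Real.exp (-(ε * R))) * ((1 + δ) * R - R) =
          L * K0 * (C * δ) * R * Real.exp (-(ε * R)) := by ring
        _ ≤ L * K0 * (C * δ) * (1 + R) ^ 6 * X := by gcongr
    have t4 : L * (K0 * (1 + R) ^ 5 * E) * C0 * Real.pi ≤
        L * K0 * (C0 * Real.pi) * (1 + R) ^ 6 * X := by
      calc L * (K0 * (1 + R) ^ 5 * E) * C0 * Real.pi =
          L * K0 * (C0 * Real.pi) * (1 + R) ^ 5 * E := by ring
        _ ≤ L * K0 * (C0 * Real.pi) * (1 + R) ^ 6 * X := by gcongr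
    have t5 : 0 ≤ K1 * Real.exp (16 * κ / δ) * (1 + R) ^ 6 * X := by positivity
    calc _ ≤ L * K0 * C0 * (1 + R) ^ 6 * X + L * K0 * (2 * C) * (1 + R) ^ 6 * X +
        L * K0 * (C * δ) * (1 + R) ^ 6 * X + L * K0 * (C0 * Real.pi) * (1 + R) ^ 6 * X := by
          linarith
      _ = K2 * (1 + R) ^ 6 * X := by rw [hK2]; ring
      _ ≤ (K1 * Real.exp (16 * κ / δ) + K2) * (1 + R) ^ 6 * X := by linarith

end W200.SW
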